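import Pool.Agent.H5SEP.Final

/-!
# MP_ca000f_co, Q1: a 2-connected graph whose summed gamma-differences have a negative coefficient

The graph has 9 vertices `0, …, 8` and 19 edges: `{0, 1, 2, 3, 4}` spans a `K₅` minus the edge `01`,
`{5, 6, 7, 8}` spans a `K₄`, and the other edges are `05`, `06`, `17`, `18`. For it
`Z_G(t) = 38 t + 508 t² + 668 t³ - 12 t⁴`.

Proof. `|mP_G ∩ ℤⁿ|` is the number of balanced integer vectors which are sums of at most `m` vectors `e_a - e_b`, `ab` an
edge, or zero; for `m ≤ 4` these sets are enumerated in the kernel as bit sets (of codes `∑ W_j x_j`, where all sums of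
eight of the weights `W_j` are distinct), for `G` and for the `19` graphs `G∖e`. This gives the coefficients
`0, …, 4` of the `h*`-polynomials, and so of the `γ`-polynomials. That the `γ`-polynomials exist (the `h*`-polynomial of
`P_G`, `G` connected, is palindromic) is proved for all connected graphs by a half-open decomposition of a unimodular
fan, which is obtained from generic edge lengths (`FEX`, `FPAL`).
-/

set_option autoImplicit false

namespace Pool.Agent.Results.MP_ca000f_co.NineVertexCounterexample

open Pool.Agent.R135.SEP Pool.Agent.H5SEP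

/-- **Disproof of Q1 of MP_ca000f_co.** -/
theorem result :
    -- for every connected graph the `γ`-polynomial of `h*_{P_G}` exists and is unique
    (∀ (n : ℕ) (G : SimpleGraph (Fin n)), 2 ≤ n → G.Connected →
      ∃! γ : Polynomial ℤ, IsGammaPolynomial (n - 1) (hStar (n - 1) (edgePolytope G)) γ) ∧
    -- the example
    TwoConnected exampleGraph ∧
    Z exampleGraph = 38 * Polynomial.X + 508 * Polynomial.X ^ 2 + 668 * Polynomial.X ^ 3 -
      12 * Polynomial.X ^ 4 ∧
    -- the statement in Q1 is false
    ¬ ∀ (n : ℕ) (G : SimpleGraph (Fin n)), TwoConnected G → ∀ k : ℕ, 0 ≤ (Z G).coeff k := by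
  refine ⟨fun n G hn hG => existsUnique_gamma G hn hG, twoConnected, Z_eq, fun h => ?_⟩
  have h1 := h 9 exampleGraph twoConnected 4
  rw [Z_coeff] at h1
  have h2 := zv4
  unfold zv at h2
  rw [h2] at h1
  norm_num at h1

end Pool.Agent.Results.MP_ca000f_co.NineVertexCounterexample
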